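import Pool.Agent.Helper15_SIQ.Stmts

/-!
# MP_021b97_an, Q1, squad SIQ: DSN (the DSH norm of an average)
-/

set_option autoImplicit false

open MeasureTheory Filter Topology

namespace Pool.Agent.SIQ.H38

open Pool.Agent.SIU

theorem isCont_sub {q : ℕ} {T S : X1.Current q} (hT : X1.IsCont T) (hS : X1.IsCont S) :
    X1.IsCont (T - S) := by
  obtain ⟨Q1, C1, hQ1, hU1, h1⟩ := hT
  obtain ⟨Q2, C2, hQ2, hU2, h2⟩ := hS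
  refine ⟨Q1 ∪ Q2, C1 + C2, hQ1.union hQ2, Set.union_subset hU1 hU2, fun β c hc => ?_⟩
  have a1 := h1 β c fun z hz => hc z (Or.inl hz)
  have a2 := h2 β c fun z hz => hc z (Or.inr hz)
  rw [LinearMap.sub_apply]
  calc |T β - S β| ≤ |T β| + |S β| := abs_sub _ _
    _ ≤ C1 * c + C2 * c := add_le_add a1 a2
    _ = (C1 + C2) * c := by ring

theorem isBidim_sub {q : ℕ} {T S : X1.Current q} (hT : X1.IsBidim T) (hS : X1.IsBidim S) :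
    X1.IsBidim (T - S) := by
  intro u hu β β' h
  rw [LinearMap.sub_apply, LinearMap.sub_apply, hT u hu β β' h, hS u hu β β' h]

theorem avT_sub {q : ℕ} {δ : Fin 3 → ℝ} {T S T' S' : X1.Current q} (h : AvT δ T S)
    (h' : AvT δ T' S') : AvT δ (T - T') (S - S') := by
  intro β
  rw [LinearMap.sub_apply, LinearMap.sub_apply, h β, h' β]

theorem avT_unique {q : ℕ} {δ : Fin 3 → ℝ} {T S S' : X1.Current q} (h : AvT δ T S)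
    (h' : AvT δ T S') : S = S' := by
  apply LinearMap.ext
  intro β
  rw [h β, h' β]

theorem dsn (hT : TavStmt) (hD : TddStmt) : DsnStmt := by
  intro δ hδ w q
  cases q with
  | zero =>
    rintro T c ⟨T₁, T₂, rfl, h1, h2, c₁, c₂, m1, m2, hc⟩
    refine ⟨isCont_sub h1.2.1 h2.2.1, isBidim_sub h1.1 h2.1, fun S hS => ?_⟩
    obtain ⟨⟨S₁, hS1⟩, t1⟩ := hT δ hδ 0 T₁ h1.2.1
    obtain ⟨⟨S₂, hS2⟩, t2⟩ := hT δ hδ 0 T₂ h2.2.1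
    have e := avT_unique hS (avT_sub hS1 hS2)
    obtain ⟨_, _, p1, _, n1⟩ := t1 S₁ hS1
    obtain ⟨_, _, p2, _, n2⟩ := t2 S₂ hS2
    exact ⟨S₁, S₂, e, p1 w h1, p2 w h2, c₁, c₂, n1 c₁ m1, n2 c₂ m2, hc⟩
  | succ q =>
    rintro T c ⟨T₁, T₂, P₁, M₁, P₂, M₂, rfl, h1, h2, hp1, hm1, hp2, hm2, kp1, km1, kp2, km2,
      d1, d2, c₁, c₂, c₃, c₄, m1, m2, m3, m4, hc⟩
    refine ⟨isCont_sub h1.2.1 h2.2.1, isBidim_sub h1.1 h2.1, fun S hS => ?_⟩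
    obtain ⟨⟨S₁, hS1⟩, t1⟩ := hT δ hδ (q + 1) T₁ h1.2.1
    obtain ⟨⟨S₂, hS2⟩, t2⟩ := hT δ hδ (q + 1) T₂ h2.2.1
    obtain ⟨⟨P₁', hP1⟩, u1⟩ := hT δ hδ q P₁ hp1.2.1
    obtain ⟨⟨M₁', hM1⟩, u2⟩ := hT δ hδ q M₁ hm1.2.1
    obtain ⟨⟨P₂', hP2⟩, u3⟩ := hT δ hδ q P₂ hp2.2.1
    obtain ⟨⟨M₂', hM2⟩, u4⟩ := hT δ hδ q M₂ hm2.2.1
    have e := avT_unique hS (avT_sub hS1 hS2)
    obtain ⟨_, _, p1, _, n1⟩ := t1 S₁ hS1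
    obtain ⟨_, _, p2, _, n2⟩ := t2 S₂ hS2
    obtain ⟨_, _, p3, l3, n3⟩ := u1 P₁' hP1
    obtain ⟨_, _, p4, l4, n4⟩ := u2 M₁' hM1
    obtain ⟨_, _, p5, l5, n5⟩ := u3 P₂' hP2
    obtain ⟨_, _, p6, l6, n6⟩ := u4 M₂' hM2
    exact ⟨S₁, S₂, P₁', M₁', P₂', M₂', e, p1 w h1, p2 w h2, p3 w hp1, p4 w hm1, p5 w hp2,
      p6 w hm2, l3 kp1, l4 km1, l5 kp2, l6 km2,
      hD δ hδ q T₁ (P₁ - M₁) h1.2.1 (isCont_sub hp1.2.1 hm1.2.1) d1 S₁ (P₁' - M₁') hS1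
        (avT_sub hP1 hM1),
      hD δ hδ q T₂ (P₂ - M₂) h2.2.1 (isCont_sub hp2.2.1 hm2.2.1) d2 S₂ (P₂' - M₂') hS2
        (avT_sub hP2 hM2),
      c₁, c₂, c₃, c₄, n1 c₁ m1, n2 c₂ m2, n3 c₃ m3, n5 c₄ m4, hc⟩

end Pool.Agent.SIQ.H38
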