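import Pool.Agent.Helper15_SIQ.Stmts

/-!
# MP_021b97_an, Q1, squad SIQ: TDD (the average of `dd^c T`)
-/

set_option autoImplicit false

open MeasureTheory Filter Topology

namespace Pool.Agent.SIQ.H38

open Pool.Agent.SIU

theorem extDeriv_congr_nhds {N k : ℕ} {a b : (Fin N → ℂ) → Alt N k} {z : Fin N → ℂ}
    (h : a =ᶠ[𝓝 z] b) : extDeriv a z = extDeriv b z := by
  unfold extDeriv
  rw [h.fderiv_eq]

theorem ddc_congr_nhds {N k : ℕ} {a b : (Fin N → ℂ) → Alt N k} {z : Fin N → ℂ}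
    (h : a =ᶠ[𝓝 z] b) : ddc a z = ddc b z := by
  unfold ddc
  congr 1
  apply extDeriv_congr_nhds
  filter_upwards [h.eventuallyEq_nhds] with w hw
  rw [extDeriv_congr_nhds hw]

theorem tdd (hG : GsfStmt) (_hA : AvfStmt) (hI : IntStmt) (hR : RhoStmt) (hT : TavStmt)
    (hQ : QuaStmt) : TddStmt := by
  intro δ hδ q T P hTc hPc hTP S R hS hRP
  obtain ⟨hPb, hdd⟩ := hTP
  refine ⟨((hT δ hδ q P hPc).2 R hRP).2.1 hPb, ?_⟩
  intro φ hφs hφr β hβ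
  rw [hRP φ, hS β, (hI δ hδ q P hPc φ).2, (hI δ hδ (q + 1) T hTc β).2]
  congr 1
  refine integral_congr_ae (Eventually.of_forall fun g => ?_)
  show rho δ g * P (toF (gs g φ.1)) = rho δ g * T (toF (gs g β.1))
  by_cases h0 : rho δ g = 0
  · rw [h0, zero_mul, zero_mul]
  have hg : g ∈ X1.U := ((hR δ hδ).2.2.2.2.2.2.1 g h0).1
  congr 1
  obtain ⟨g1, g2, g3, _, g5, _, _, g8⟩ := hG g hg
  have hcφ := g1 _ φ.1 φ.2.1
  have hbφ := g2 _ φ.1 φ.2.2.1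
  have hcβ := g1 _ β.1 β.2.1
  have hbβ := g2 _ β.1 β.2.2.1
  have heq : ∀ z ∈ X1.U, (toF (gs g φ.1)).1 z = gs g φ.1 z := fun z hz => toF_apply hcφ hbφ hz
  apply hdd
  · exact (g3 _ φ.1 hφs).congr heq
  · intro z hz u hu v
    rw [heq z hz]
    exact g8 _ φ.1 (fun z hz u hu v => hφr z hz u hu v) z hz u hu v
  · intro z hz
    rw [toF_apply hcβ hbβ hz]
    have h1 : ddc (toF (gs g φ.1)).1 z = ddc (gs g φ.1) z := by
      apply ddc_congr_nhds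
      filter_upwards [isOpen_U1.mem_nhds hz] with w hw
      exact heq w hw
    rw [h1, g5 _ φ.1 (hφs.of_le (WithTop.coe_le_coe.mpr (le_top : (2 : ℕ∞) ≤ ⊤))) z hz]
    unfold gs
    rw [hβ (qm g z) ((hQ.2.1 g z).mpr ⟨hg, hz⟩)]

end Pool.Agent.SIQ.H38
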